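import Pool.Agent.FFL.G4

/-!
# Fatou flowers for germs with a weighted leading part, complex weights

Let `f` be a germ at the origin of `ℂⁿ` tangent to the identity, of multiplicity `ν`, given by its power
series coefficients `a j α`, and let `q_1, ..., q_n` be complex numbers with positive real parts such
that every exponent `α` of `f_j - z_j` satisfies `⟨q, α⟩ = q_j + 1` or `Re ⟨q, α⟩ > Re q_j + 1`.  Let
`P_j` be the sum of the terms with `⟨q, α⟩ = q_j + 1` and suppose that `P_j(c) = λ q_j c_j` for all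
`j`, with `λ ≠ 0`.  If all `j` for which `Re q_j` is minimal have the same `q_j = q_(j₀)` and
`c_(j₀) ≠ 0`, then `f` has a Fatou flower tangent to `[v]`, `v_j = c_j` if `q_j = q_(j₀)` and `v_j = 0`
otherwise.  (The curves behave like `(c_j ζ^(-q_j))`, `ζ → ∞`, so they spiral if the `q_j` are not real.)
-/

set_option autoImplicit false

open FFL

namespace Pool.Agent.Results.MP_693ed2_an.ComplexWeights

open Classical in
theorem result {n : ℕ} {f : (Fin n → ℂ) → (Fin n → ℂ)} {a : Fin n → (Fin n →₀ ℕ) → ℂ} {ν : ℕ}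
    (hf : HasSeries f a) (hν : TangentToId a ν) (q : Fin n → ℂ) (hq : ∀ i, 0 < (q i).re)
    (hw : WDeg q a) (c : Fin n → ℂ) (lam : ℂ) (hlam : lam ≠ 0)
    (hc : ∀ j, lead q a j c = lam * (q j * c j)) (j₀ : Fin n) (hj₀ : c j₀ ≠ 0)
    (hmin : ∀ j, q j = q j₀ ∨ (q j₀).re < (q j).re) :
    HasFlower f ν (fun j => if q j = q j₀ then c j else 0) :=
  flower_complex hf hν q hq hw c j₀ hj₀ hmin lam hlam hc

end Pool.Agent.Results.MP_693ed2_an.ComplexWeights
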