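import Pool.Agent.FFL.N4

/-!
# Generic germs with given Newton polyhedra have Fatou flowers

Let `n ≥ 1` and let `A_1, ..., A_n` be finite sets of exponents of degree `≥ 2`, of isolated type: for
every nonempty set `J` of coordinates at least `|J|` of the sets `A_i` contain an exponent which only
involves the coordinates in `J` (this is necessary for the origin to be an isolated fixed point of some
germ with these supports).  Then there is a nonzero polynomial `D` in the coefficients `a_(i,m)`,
`m ∈ A_i`, such that every germ `f` tangent to the identity of Newton type `A` (all other exponents of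
`f_j - z_j` lie strictly above the compact faces of the Newton polyhedron of `A_j`; the coefficients are
arbitrary) with `D(a) ≠ 0` has a Fatou flower tangent to some direction.
-/

set_option autoImplicit false

open FFL

namespace Pool.Agent.Results.MP_693ed2_an.NewtonGeneric

theorem result {n : ℕ} (hn : 0 < n) (A : Fin n → Finset (Fin n →₀ ℕ))
    (h2 : ∀ i, ∀ m ∈ A i, 2 ≤ deg m) (hI : IsolatedType A) :
    ∃ D : MvPolynomial (Σ i : Fin n, {m // m ∈ A i}) ℂ, D ≠ 0 ∧
      ∀ (f : (Fin n → ℂ) → (Fin n → ℂ)) (a : Fin n → (Fin n →₀ ℕ) → ℂ) (ν : ℕ),
        HasSeries f a → TangentToId a ν → NewtonType A a →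
        MvPolynomial.eval (fun p => a p.1 p.2.1) D ≠ 0 →
        ∃ v : Fin n → ℂ, v ≠ 0 ∧ HasFlower f ν v :=
  newton_generic hn A h2 hI

end Pool.Agent.Results.MP_693ed2_an.NewtonGeneric
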