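import Pool.Agent.MP_693ed2_an.FTP.Main

/-!
# Every germ tangent to the identity with an isolated fixed point has parabolic curves

Let `f` be a germ of holomorphic maps of `ℂⁿ`, `n ≥ 1`, with `f(O) = O`, `Df(O) = Id` and isolated fixed
point `O`. For every neighbourhood of `O` (every `ε > 0`):

* There is an injective holomorphic map `ψ` from the half-plane `Re t > 0` to `ℂⁿ ∖ {O}` with
  `‖ψ(t)‖ < ε`, `f(ψ(t)) = ψ(t + 1)` and `ψ(t) → O` uniformly as `Re t → ∞`.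
* For every `m ≥ 1` (`m = ν - 1` in the notation of the problem) and `0 < δ ≤ 1/2` there is one
  injective holomorphic map `Φ : D m δ = {ζ : |ζ^m - δ| < δ} → ℂⁿ ∖ {O}`, `‖Φ‖ < ε`, whose restriction to
  every connected component `Δ` of `D m δ` is a parabolic curve: `Δ` is a simply connected domain,
  `0 ∈ ∂Δ`, `Φ(ζ) → O` as `ζ → 0` in `Δ`, `Φ(Δ)` is `f`-invariant and `f^k → O`
  uniformly on `Φ(Δ)`.

What is missing for a Fatou flower is only the tangency of the curves to a direction.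
-/

set_option autoImplicit false

open Metric Set Filter Topology FTP

namespace Pool.Agent.Results.MP_693ed2_an.ParabolicCurves

theorem result {n : ℕ} (hn : 0 < n) {f : E n → E n} (hf : AnalyticAt ℂ f 0) (h0 : f 0 = 0)
    (h1 : fderiv ℂ f 0 = ContinuousLinearMap.id ℂ (E n)) (hiso : ∀ᶠ z in 𝓝[≠] (0 : E n), f z ≠ z)
    {ε : ℝ} (hε : 0 < ε) :
    (∃ ψ : ℂ → E n, DifferentiableOn ℂ ψ {t | 0 < t.re} ∧
      (∀ t : ℂ, 0 < t.re → ψ t ≠ 0 ∧ ‖ψ t‖ < ε ∧ f (ψ t) = ψ (t + 1)) ∧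
      InjOn ψ {t | 0 < t.re} ∧ Tendsto ψ (comap Complex.re atTop) (𝓝 0)) ∧
    ∀ m : ℕ, 0 < m → ∀ δ : ℝ, 0 < δ → δ ≤ 1 / 2 → ∃ Φ : ℂ → E n, InjOn Φ (D m δ) ∧
      (∀ x ∈ D m δ, ‖Φ x‖ < ε) ∧ ∀ x ∈ D m δ, ParabolicCurve f (connectedComponentIn (D m δ) x) Φ :=
  FTP.main hn hf h0 h1 hiso hε

end Pool.Agent.Results.MP_693ed2_an.ParabolicCurves
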