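import Pool.Agent.FFL.G3

/-!
# Fatou flowers for germs with a non-degenerate weighted leading part

Let `n ≥ 1` and let `f` be a germ at the origin of `ℂⁿ` tangent to the identity, of multiplicity `ν`,
given by its power series coefficients `a j α`.

* Let `q_1, ..., q_n > 0` and `δ > 0` be real numbers such that every exponent `α` of `f_j - z_j` has
  weight `⟨q, α⟩ ≥ q_j + δ`, and let `P_j` be the sum of the terms of `f_j` of weight `q_j + δ`.  If
  there are `c ≠ 0` and `λ ≠ 0` with `P_j(c) = λ q_j c_j` for all `j`, then `f` has a Fatou flower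
  tangent to some direction `[v]`.
* Semi-quasi-homogeneous germs: if `q = w` and `δ = d` are positive integers and `0` is the only common
  zero of `P_1, ..., P_n`, then `f` has a Fatou flower tangent to some direction.

No assumption is made on the ordinary leading part `P_ν`: all characteristic directions of `f` may be
degenerate.
-/

set_option autoImplicit false

open FFL

namespace Pool.Agent.Results.MP_693ed2_an.QuasiHomogeneous

theorem result {n : ℕ} (hn : 0 < n) {f : (Fin n → ℂ) → (Fin n → ℂ)}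
    {a : Fin n → (Fin n →₀ ℕ) → ℂ} {ν : ℕ} (hf : HasSeries f a) (hν : TangentToId a ν) :
    (∀ (q : Fin n → ℝ) (δ : ℝ), (∀ i, 0 < q i) → 0 < δ →
      (∀ j α, a j α ≠ 0 → α ≠ Finsupp.single j 1 → q j + δ ≤ wt q α) →
      (∃ c : Fin n → ℂ, c ≠ 0 ∧ ∃ lam : ℂ, lam ≠ 0 ∧
        ∀ j, leadR q δ a j c = lam * (q j * c j)) →
      ∃ v : Fin n → ℂ, v ≠ 0 ∧ HasFlower f ν v) ∧
    (∀ (w : Fin n → ℕ) (d : ℕ), (∀ i, 0 < w i) → 0 < d →
      (∀ j α, a j α ≠ 0 → α ≠ Finsupp.single j 1 →
        (w j : ℝ) + d ≤ wt (fun i => (w i : ℝ)) α) →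
      (∀ c : Fin n → ℂ, (∀ j, leadR (fun i => (w i : ℝ)) d a j c = 0) → c = 0) →
      ∃ v : Fin n → ℂ, v ≠ 0 ∧ HasFlower f ν v) :=
  ⟨fun q δ hq hδ hdeg ⟨c, hc0, lam, hlam, hc⟩ =>
    flower_real hf hν q hq δ hδ hdeg c hc0 lam hlam hc,
   fun w d hw hd hdeg hiso => flower_iso hn hf hν w hw d hd hdeg hiso⟩

end Pool.Agent.Results.MP_693ed2_an.QuasiHomogeneous
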